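import Pool.Agent.Run7.h580.NU.Part
import Pool.Agent.Results.MP_c222f6_nt.InfinitelyManyNu2

/-!
# Infinitely many maximal `(ν₃, 2)`-progressions (MP_c222f6_nt, Q2, full answer)

The definitions `nu`, `P`, `IsProgression`, `IsMaximal` are those of the starting file
`InfinitelyManyNu2`. For every prime `p ≡ 7 (mod 8)` the pair `(4 p², 4 p² - 2 p)` is a
`(ν₃, 2)`-progression: by the identity of Gauss for the overpartitions
`ν₁(m) + 2 ν₂(m) + 4 ν₃(m) ≡ 0 (mod 8)` if `m` has none of the forms `x²`, `x² + y²`, `x² + 2 y²`, and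
for `m = 2 p b`, `b` odd and prime to `p`, this gives `ν₃(m) ≡ d(b) (mod 2)`. Every
`(ν₃, 2)`-progression which contains it has a first entry divisible by `p`, because `ν₃(6) = 1`.
-/

set_option autoImplicit false

namespace Pool.Agent.Results.MP_c222f6_nt.InfinitelyManyNu3

open Finset Pool.Agent.R443 Pool.Agent.Results.MP_c222f6_nt.InfinitelyManyNu2

/-- the partition of `m` into parts `a` -/
def one (m a : ℕ) (h : a ∈ m.divisors) : m.Partition where
  parts := Multiset.replicate (m / a) a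
  parts_pos := by
    intro i hi
    rw [(Multiset.mem_replicate.1 hi).2]
    exact Nat.pos_of_mem_divisors h
  parts_sum := by
    rw [Multiset.sum_replicate, smul_eq_mul]
    exact Nat.div_mul_cancel (Nat.dvd_of_mem_divisors h)

theorem one_toFinset (m a : ℕ) (h : a ∈ m.divisors) : (one m a h).parts.toFinset = {a} := by
  ext x
  rw [Multiset.mem_toFinset, Finset.mem_singleton]
  change x ∈ Multiset.replicate (m / a) a ↔ x = a
  rw [Multiset.mem_replicate]
  refine ⟨fun hx => hx.2, fun hx => ⟨?_, hx⟩⟩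
  have h1 := Nat.mem_divisors.1 h
  have h2 : 0 < m / a := Nat.div_pos (Nat.le_of_dvd (Nat.pos_of_ne_zero h1.2) h1.1)
    (Nat.pos_of_mem_divisors h)
  omega

theorem nu_one {m : ℕ} (hm : 1 ≤ m) : nu 1 m = m.divisors.card := by
  symm
  unfold nu
  refine Finset.card_bij (fun a ha => one m a ha) ?_ ?_ ?_
  · intro a ha
    rw [mem_filter, one_toFinset, card_singleton]
    exact ⟨mem_univ _, rfl⟩
  · intro a ha b hb hab
    have h1 := one_toFinset m a ha
    rw [hab, one_toFinset m b hb] at h1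
    exact (Finset.singleton_injective h1).symm
  · intro p hp
    rw [mem_filter] at hp
    obtain ⟨a, ha⟩ := Finset.card_eq_one.1 hp.2
    have h1 : ∀ b ∈ p.parts, b = a := by
      intro b hb
      have : b ∈ p.parts.toFinset := Multiset.mem_toFinset.2 hb
      rw [ha, Finset.mem_singleton] at this
      exact this
    have h2 : p.parts = Multiset.replicate (Multiset.card p.parts) a :=
      Multiset.eq_replicate.2 ⟨rfl, h1⟩
    have h3 : Multiset.card p.parts * a = m := by
      have h4 := p.parts_sum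
      rw [h2, Multiset.sum_replicate, smul_eq_mul] at h4
      exact h4
    have ha0 : 0 < a := by
      rcases Nat.eq_zero_or_pos a with h | h
      · rw [h, mul_zero] at h3
        omega
      · exact h
    have h5 : a ∈ m.divisors := Nat.mem_divisors.2 ⟨⟨_, by rw [← h3, mul_comm]⟩, by omega⟩
    refine ⟨a, h5, ?_⟩
    apply Nat.Partition.ext
    change Multiset.replicate (m / a) a = p.parts
    have h6 : m / a = Multiset.card p.parts := Nat.div_eq_of_eq_mul_left ha0 h3.symm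
    rw [h6]
    exact h2.symm

theorem sum_two_pow {m : ℕ} (hm : 1 ≤ m) : ∃ c : ℤ,
    ∑ p : m.Partition, (2 : ℤ) ^ p.parts.toFinset.card =
      2 * nu 1 m + 4 * nu 2 m + 8 * nu 3 m + 16 * c := by
  have hcard : ∀ p : m.Partition, p.parts.toFinset.card ≠ 0 := by
    intro p h
    rw [Finset.card_eq_zero, Multiset.toFinset_eq_empty] at h
    have h1 := p.parts_sum
    rw [h, Multiset.sum_zero] at h1
    omega
  refine ⟨∑ p : m.Partition, if 4 ≤ p.parts.toFinset.card then
    (2 : ℤ) ^ (p.parts.toFinset.card - 4) else 0, ?_⟩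
  have hnu : ∀ k : ℕ, ((nu k m : ℕ) : ℤ) =
      ∑ p : m.Partition, if p.parts.toFinset.card = k then (1 : ℤ) else 0 := by
    intro k
    unfold nu
    rw [Finset.card_filter]
    push_cast
    rfl
  rw [hnu, hnu, hnu, mul_sum, mul_sum, mul_sum, mul_sum, ← sum_add_distrib, ← sum_add_distrib,
    ← sum_add_distrib]
  refine sum_congr rfl fun p _ => ?_
  have h0 := hcard p
  generalize p.parts.toFinset.card = k at *
  rcases Nat.lt_or_ge k 4 with h | h
  · interval_cases k
    · exact absurd rfl h0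
    · norm_num
    · norm_num
    · norm_num
  · rw [if_neg (by omega), if_neg (by omega), if_neg (by omega), if_pos h]
    obtain ⟨j, rfl⟩ : ∃ j, k = j + 4 := ⟨k - 4, by omega⟩
    rw [Nat.add_sub_cancel, pow_add]
    ring

/-- the congruence modulo 8 -/
theorem mod_eight {m : ℕ} (hm : 1 ≤ m) (h1 : ∀ x : ℕ, 1 ≤ x → x * x ≠ m)
    (h2 : ∀ x y : ℕ, 1 ≤ x → 1 ≤ y → x * x + y * y ≠ m)
    (h3 : ∀ x y : ℕ, 1 ≤ x → 1 ≤ y → x * x + 2 * (y * y) ≠ m) :
    8 ∣ nu 1 m + 2 * nu 2 m + 4 * nu 3 m := by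
  obtain ⟨n, hn, hG⟩ := Pool.Agent.Run7.h580.NU.exists_coeff m
  obtain ⟨c, hc⟩ := Pool.Agent.Run7.h580.NU.coeff_Pb hm hn
  rw [Pool.Agent.Run7.h580.NU.coeff_A n h1, Pool.Agent.Run7.h580.NU.coeff_A2 n h2, hG,
    Pool.Agent.Run7.h580.NU.coeff_G] at hc
  obtain ⟨e, he⟩ := Pool.Agent.Run7.h580.NU.coeff_A3 n h3
  rw [he] at hc
  obtain ⟨f, hf⟩ := sum_two_pow hm
  rw [hf] at hc
  omega

theorem not_form {p N : ℕ} (hp : p.Prime) (hp4 : p % 8 = 7) (h1 : p ∣ N) (h2 : ¬ p ^ 2 ∣ N)
    (x y : ℕ) : x * x + 2 * (y * y) ≠ 2 * N := by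
  intro h
  have : Fact p.Prime := ⟨hp⟩
  have hodd : Nat.Coprime (p ^ 2) 2 := by
    apply Nat.Coprime.pow_left
    rw [Nat.coprime_comm, Nat.coprime_two_left, Nat.odd_iff]
    omega
  have hxy : (x : ZMod p) ^ 2 = -2 * (y : ZMod p) ^ 2 := by
    have h3 : ((x * x + 2 * (y * y) : ℕ) : ZMod p) = 0 := by
      rw [h, ZMod.natCast_eq_zero_iff]
      exact Dvd.dvd.mul_left h1 2
    push_cast at h3
    linear_combination h3
  have hy : (y : ZMod p) = 0 := by
    by_contra hy
    have hsq : IsSquare (-2 : ZMod p) := by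
      refine ⟨(x : ZMod p) * (y : ZMod p)⁻¹, ?_⟩
      field_simp
      linear_combination -hxy
    rw [ZMod.exists_sq_eq_neg_two_iff (by rintro rfl; omega)] at hsq
    omega
  have hx : (x : ZMod p) = 0 := by
    rw [hy] at hxy
    have : (x : ZMod p) ^ 2 = 0 := by rw [hxy]; ring
    exact pow_eq_zero_iff (two_ne_zero) |>.mp this
  rw [ZMod.natCast_eq_zero_iff] at hx hy
  apply h2
  apply hodd.dvd_of_dvd_mul_left
  rw [← h, ← pow_two, ← pow_two]
  exact dvd_add (pow_dvd_pow_of_dvd hx 2) (Dvd.dvd.mul_left (pow_dvd_pow_of_dvd hy 2) 2)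

/-- `ν₃ (2 p b)` is even if `b` is not a square -/
theorem even_nu {p b : ℕ} (hp : p.Prime) (hp4 : p % 8 = 7) (hb : b % 2 = 1) (hpb : ¬ p ∣ b)
    (hsq : ∀ t : ℕ, 1 ≤ t → t * t ≠ b) : 2 ∣ nu 3 (2 * (p * b)) := by
  have hp0 := hp.pos
  have hN : (p * b) % 2 = 1 := by
    rw [Nat.mul_mod]
    have h1 : p % 2 = 1 := by omega
    rw [h1, hb]
  have hp2 : ¬ p ^ 2 ∣ p * b := by
    rw [pow_two]
    intro h
    exact hpb (Nat.dvd_of_mul_dvd_mul_left hp0 h)
  have hm : 1 ≤ 2 * (p * b) := by omega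
  have hns := not_sum_sq hp hp4 (dvd_mul_right p b) hp2
  have h8 := mod_eight hm (fun x _ => by have := hns x 0; simpa using this) (fun x y _ _ => hns x y)
    (fun x y _ _ => not_form hp hp4 (dvd_mul_right p b) hp2 x y)
  have h4 : 4 ∣ nu 2 (2 * (p * b)) :=
    Nu2.four_dvd_nu hN (fun x y _ _ => hns x y) (sigma_dvd hp hp4 hb hpb)
  have h1 : 8 ∣ nu 1 (2 * (p * b)) := by
    rw [nu_one hm]
    have hcop1 : Nat.Coprime p b := (Nat.Prime.coprime_iff_not_dvd hp).mpr hpb
    have hcop2 : Nat.Coprime 2 (p * b) := by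
      rw [Nat.coprime_two_left, Nat.odd_iff]
      exact hN
    rw [Nat.Coprime.card_divisors_mul hcop2, Nat.Coprime.card_divisors_mul hcop1]
    have h2 : (Nat.divisors 2).card = 2 := by decide
    have h3 : (Nat.divisors p).card = 2 := by
      rw [Nat.Prime.divisors hp, Finset.card_pair hp.one_lt.ne]
    rw [h2, h3, Nu2.card_eq, Nu2.s_eq_zero hsq]
    exact ⟨Nu2.e b, by ring⟩
  obtain ⟨u, hu⟩ := h8
  obtain ⟨v, hv⟩ := h4
  obtain ⟨w, hw⟩ := h1
  rw [hv, hw] at hu
  omega

/-- `(4 p², 4 p² - 2 p)` is a `(ν₃, 2)`-progression. -/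
theorem progression3 {p : ℕ} (hp : p.Prime) (hp4 : p % 8 = 7) :
    IsProgression 3 2 (4 * p ^ 2) (4 * p ^ 2 - 2 * p) := by
  have hp0 := hp.pos
  have hp7 : 7 ≤ p := by omega
  have h4 : 2 * p < 4 * p ^ 2 := by nlinarith
  refine ⟨Nat.one_le_iff_ne_zero.mpr (by positivity), by omega, by omega, ?_⟩
  intro n
  set b := 2 * (p * (n + 1)) - 1 with hb
  have hpn : 7 ≤ p * (n + 1) := by nlinarith
  have e : 4 * p ^ 2 * n + (4 * p ^ 2 - 2 * p) = 2 * (p * b) := by
    have h5 : p * b + p = p * (2 * (p * (n + 1))) := by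
      have h6 : b + 1 = 2 * (p * (n + 1)) := by omega
      rw [← h6]
      ring
    have h7 : p * (2 * (p * (n + 1))) = 2 * (p ^ 2 * n) + 2 * p ^ 2 := by ring
    have h8 : 4 * p ^ 2 * n = 4 * (p ^ 2 * n) := by ring
    rw [h7] at h5
    omega
  have hpb : ¬ p ∣ b := by
    intro h
    have h5 : p ∣ b + 1 := by
      have h6 : b + 1 = 2 * (p * (n + 1)) := by omega
      rw [h6]
      exact Dvd.dvd.mul_left (dvd_mul_right p (n + 1)) 2
    have h1 : p ∣ 1 := (Nat.dvd_add_right h).mp h5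
    exact hp.one_lt.ne' (Nat.dvd_one.mp h1)
  rw [e]
  refine even_nu hp hp4 (by omega) hpb ?_
  intro t _ ht
  have : Fact p.Prime := ⟨hp⟩
  have h9 : (t : ZMod p) ^ 2 = -1 := by
    have h5 : ((t * t + 1 : ℕ) : ZMod p) = 0 := by
      rw [ht, ZMod.natCast_eq_zero_iff]
      have h6 : b + 1 = 2 * (p * (n + 1)) := by omega
      rw [h6]
      exact Dvd.dvd.mul_left (dvd_mul_right p (n + 1)) 2
    push_cast at h5
    linear_combination h5
  exact ZMod.mod_four_ne_three_of_sq_eq_neg_one h9 (by omega)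

theorem nu_three_six : nu 3 6 = 1 := by
  unfold nu
  rw [Finset.card_eq_one]
  refine ⟨⟨{1, 2, 3}, by
    intro i hi
    simp only [Multiset.insert_eq_cons, Multiset.mem_cons, Multiset.mem_singleton] at hi
    omega, by decide⟩, ?_⟩
  ext p
  rw [mem_filter, mem_singleton]
  constructor
  · rintro ⟨_, hp⟩
    apply Nat.Partition.ext
    change p.parts = {1, 2, 3}
    obtain ⟨u, hu⟩ := Multiset.le_iff_exists_add.1 (Multiset.dedup_le p.parts)
    have hs := p.parts_sum
    have h0 : p.parts.sum = p.parts.dedup.sum + u.sum := by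
      calc p.parts.sum = (p.parts.dedup + u).sum := congrArg Multiset.sum hu
        _ = _ := Multiset.sum_add _ _
    have e1 : ∑ x ∈ p.parts.toFinset, x = p.parts.dedup.sum := by
      rw [← Multiset.toFinset_val, Finset.sum_val]
      rfl
    have h1 : ∑ x ∈ p.parts.toFinset, x + u.sum = 6 := by
      rw [e1, ← h0]
      exact hs
    have h2 : p.parts.toFinset ∈ (Icc 1 6).powersetCard 3 := by
      rw [mem_powersetCard]
      refine ⟨fun x hx => ?_, hp⟩
      have hx' := Multiset.mem_toFinset.1 hx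
      have h3 : x ≤ p.parts.sum := Multiset.le_sum_of_mem hx'
      have h4 := p.parts_pos hx'
      rw [hs] at h3
      exact mem_Icc.2 ⟨h4, h3⟩
    have h3 : ∀ T ∈ (Icc 1 6).powersetCard 3, ∑ x ∈ T, x ≤ 6 → T = {1, 2, 3} := by decide
    have h4 := h3 _ h2 (by omega)
    have h5 : u.sum = 0 := by
      rw [h4] at h1
      have : ∑ x ∈ ({1, 2, 3} : Finset ℕ), x = 6 := by decide
      omega
    have h6 : u = 0 := by
      rw [Multiset.sum_eq_zero_iff] at h5
      by_contra hne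
      obtain ⟨x, hx⟩ := Multiset.exists_mem_of_ne_zero hne
      have hx0 := h5 x hx
      have h7 : x ∈ p.parts := by
        rw [hu]
        exact Multiset.mem_add.2 (Or.inr hx)
      have := p.parts_pos h7
      omega
    calc p.parts = p.parts.dedup + u := hu
      _ = p.parts.toFinset.val := by rw [h6, add_zero, Multiset.toFinset_val]
      _ = {1, 2, 3} := by rw [h4]; rfl
  · rintro rfl
    exact ⟨mem_univ _, by decide⟩

/-- The first entries of the maximal progressions are unbounded. -/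
theorem unbounded3 (N : ℕ) : ∃ A B : ℕ, IsMaximal 3 2 A B ∧ N < A := by
  obtain ⟨p, hpN, hp, hpeq⟩ := Nat.forall_exists_prime_gt_and_eq_mod (q := 8) (a := 7)
    (by decide) N
  have hp8 : p % 8 = 7 := by
    have h1 : ((p : ℕ) : ZMod 8) = ((7 : ℕ) : ZMod 8) := by rw [hpeq]; rfl
    have h2 := (ZMod.natCast_eq_natCast_iff p 7 8).mp h1
    exact h2
  obtain ⟨A, B, hmax, hsub⟩ := exists_maximal 3 2 _ _ (progression3 hp hp8)
  refine ⟨A, B, hmax, ?_⟩
  obtain ⟨h1, h2, h3⟩ := P_subset hsub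
  obtain ⟨hA1, hB1, hBA, hdiv⟩ := hmax.1
  have hpA : p ∣ A := by
    by_contra hcon
    have hcop : Nat.Coprime A (p ^ 2) := by
      apply Nat.Coprime.pow_right
      rw [Nat.coprime_comm]
      exact (Nat.Prime.coprime_iff_not_dvd hp).mpr hcon
    have h4 : A ∣ 4 := hcop.dvd_of_dvd_mul_right h1
    have hA4 : A ≤ 4 := Nat.le_of_dvd (by norm_num) h4
    have h6 : ∃ n, A * n + B = 6 := by
      obtain ⟨w, hw⟩ := h3
      obtain ⟨m, rfl⟩ : ∃ m, p = 8 * m + 7 := ⟨p / 8, by omega⟩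
      have h7 : 4 * (8 * m + 7) ^ 2 - 2 * (8 * m + 7) = 4 * (64 * m ^ 2 + 108 * m + 45) + 2 := by
        have : 4 * (8 * m + 7) ^ 2 = 4 * (64 * m ^ 2 + 108 * m + 45) + 2 + 2 * (8 * m + 7) := by
          ring
        omega
      rw [h7] at hw h2
      interval_cases A
      · exact ⟨6 - B, by omega⟩
      · exact ⟨(6 - B) / 2, by omega⟩
      · omega
      · exact ⟨(6 - B) / 4, by omega⟩
    obtain ⟨n, hn⟩ := h6
    have := hdiv n
    rw [hn, nu_three_six] at this
    omega
  exact lt_of_lt_of_le hpN (Nat.le_of_dvd (by omega) hpA)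

/-- **Q2.** There are infinitely many maximal `(ν₃, 2)`-progressions. -/
theorem result : {q : ℕ × ℕ | IsMaximal 3 2 q.1 q.2}.Infinite := by
  intro hfin
  obtain ⟨M, hM⟩ := (hfin.image Prod.fst).bddAbove
  obtain ⟨A, B, h1, h2⟩ := unbounded3 M
  have : A ≤ M := hM ⟨(A, B), h1, rfl⟩
  omega

end Pool.Agent.Results.MP_c222f6_nt.InfinitelyManyNu3
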